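import Pool.Agent.H11.Pdx3

namespace H11.TypeSg

/-- the image of a piece: move by `γ`, put on level `k` -/
def img {Γ X : Type} [SMul Γ X] (γ : Γ) (k : ℕ) (A : Set (X × ℕ)) : Set (X × ℕ) :=
  (fun z => (γ • z.1, k)) '' A

/-- Borel equidecomposability of subsets of `X × ℕ` -/
def Equi (Γ : Type) {X : Type} [SMul Γ X] [MeasurableSpace X] (A B : Set (X × ℕ)) : Prop :=
  ∃ (ι : Type) (_ : Finite ι) (P : ι → Set (X × ℕ)) (γ : ι → Γ) (j k : ι → ℕ),
    (∀ i, MeasurableSet (P i)) ∧ Pairwise (fun a b => Disjoint (P a) (P b)) ∧ ⋃ i, P i = A ∧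
    (∀ i, ∀ z ∈ P i, z.2 = j i) ∧ (∀ i, MeasurableSet (img (γ i) (k i) (P i))) ∧
    Pairwise (fun a b => Disjoint (img (γ a) (k a) (P a)) (img (γ b) (k b) (P b))) ∧
    ⋃ i, img (γ i) (k i) (P i) = B

/-- `[A] ≤ [B]` in the type semigroup -/
def Le (Γ : Type) {X : Type} [SMul Γ X] [MeasurableSpace X] (A B : Set (X × ℕ)) : Prop :=
  ∃ B', B' ⊆ B ∧ MeasurableSet B' ∧ Equi Γ A B'

/-- `n` copies of `X`, representing `n • [X × {0}]` -/
def copies (X : Type) (n : ℕ) : Set (X × ℕ) := {z | z.2 < n}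

open H11.Pdx

def pc (t : Fin 3 × Fin 2 × Fin 2) : Set (X × ℕ) :=
  {z | z.1.1 % 2 = (t.2.2.val : ℤ) % 2 ∧ rt z.1 (Fin.castAdd 2 t.1) = Fin.natAdd 3 t.2.1 ∧
    z.2 = t.1.val}

noncomputable def gm (t : Fin 3 × Fin 2 × Fin 2) : G :=
  sG (Fin.castAdd 2 t.1) (Fin.natAdd 3 t.2.1) t.2.2.val

lemma img_eq (t : Fin 3 × Fin 2 × Fin 2) : img (gm t) t.2.1.val (pc t) =
    {z | ¬ z.1.1 % 2 = (t.2.2.val : ℤ) % 2 ∧ rt z.1 (Fin.natAdd 3 t.2.1) = Fin.castAdd 2 t.1 ∧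
      z.2 = t.2.1.val} := by
  ext ⟨y, l⟩
  constructor
  · rintro ⟨⟨x, c⟩, ⟨h1, h2, _⟩, e⟩
    simp only [gm] at h1 h2 e
    rw [sG_smul h1 h2] at e
    cases e
    have := lev_mv x (Fin.castAdd 2 t.1)
    exact ⟨by simp only; omega, by simp only; rw [← h2, rt_mv], rfl⟩
  · rintro ⟨h1, h2, h3⟩
    simp only at h1 h2 h3
    have := lev_mv y (Fin.natAdd 3 t.2.1)
    have a : (mv y (Fin.natAdd 3 t.2.1)).1 % 2 = (t.2.2.val : ℤ) % 2 := by omega
    have b : rt (mv y (Fin.natAdd 3 t.2.1)) (Fin.castAdd 2 t.1) = Fin.natAdd 3 t.2.1 := by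
      rw [← h2, rt_mv]
    refine ⟨(mv y (Fin.natAdd 3 t.2.1), t.1.val), ⟨a, b, rfl⟩, ?_⟩
    simp only [gm]
    rw [sG_smul a b, ← h2, mv_mv, h3]

lemma three_two : Le G (copies X 3) (copies X 2) := by
  have m3 : ∀ n : ℕ, MeasurableSet {z : X × ℕ | z.2 = n} := fun n =>
    measurable_snd (MeasurableSet.of_discrete (s := {n}))
  have mi : ∀ t, MeasurableSet (img (gm t) t.2.1.val (pc t)) := by
    intro t
    rw [img_eq]
    exact (measurable_fst (meas_par _)).compl.inter ((measurable_fst (meas_rt_eq _ _)).inter (m3 _))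
  refine ⟨⋃ t, img (gm t) t.2.1.val (pc t), ?_, MeasurableSet.iUnion mi, _, inferInstance, pc, gm,
    fun t => t.1.val, fun t => t.2.1.val, fun t => ?_, ?_, ?_, fun t z hz => hz.2.2, mi, ?_, rfl⟩
  · intro z hz
    obtain ⟨t, ht⟩ := Set.mem_iUnion.1 hz
    rw [img_eq] at ht
    show z.2 < 2
    rw [ht.2.2]; exact t.2.1.isLt
  · exact (measurable_fst (meas_par _)).inter ((measurable_fst (meas_rt_eq _ _)).inter (m3 _))
  · rintro ⟨a, b, c⟩ ⟨a', b', c'⟩ hne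
    rw [Set.disjoint_left]
    rintro z ⟨h1, h2, h3⟩ ⟨k1, k2, k3⟩
    simp only at h1 h2 h3 k1 k2 k3
    obtain rfl : a = a' := Fin.ext (by omega)
    obtain rfl : c = c' := Fin.ext (by omega)
    have := congrArg Fin.val (h2.symm.trans k2)
    simp only [Fin.val_natAdd] at this
    obtain rfl : b = b' := Fin.ext (by omega)
    exact hne rfl
  · ext ⟨x, l⟩
    simp only [Set.mem_iUnion, copies, Set.mem_setOf_eq, pc]
    constructor
    · rintro ⟨t, _, _, h⟩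
      rw [h]; exact t.1.isLt
    · intro h
      have a := rt_out x (Fin.castAdd 2 (⟨l, h⟩ : Fin 3))
      have b := (rt x (Fin.castAdd 2 (⟨l, h⟩ : Fin 3))).isLt
      simp only [isOut, Fin.val_castAdd, h, decide_true, Bool.not_true, decide_eq_false_iff_not] at a
      refine ⟨(⟨l, h⟩, ⟨(rt x (Fin.castAdd 2 (⟨l, h⟩ : Fin 3))).val - 3, by omega⟩,
        ⟨(x.1 % 2).toNat, by omega⟩), by simp only; omega, Fin.ext ?_, rfl⟩
      simp only [Fin.val_natAdd]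
      omega
  · rintro ⟨a, b, c⟩ ⟨a', b', c'⟩ hne
    rw [Set.disjoint_left, img_eq, img_eq]
    rintro z ⟨h1, h2, h3⟩ ⟨k1, k2, k3⟩
    simp only at h1 h2 h3 k1 k2 k3
    obtain rfl : b = b' := Fin.ext (by omega)
    obtain rfl : c = c' := Fin.ext (by omega)
    have := congrArg Fin.val (h2.symm.trans k2)
    simp only [Fin.val_castAdd] at this
    obtain rfl : a = a' := Fin.ext this
    exact hne rfl

lemma not_two_one : ¬ Le G (copies X 2) (copies X 1) := by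
  rintro ⟨B', hB, _, ι, _, P, γ, j, k, _, _, h3, h4, h5, h6, h7⟩
  refine no_paradox (fun i => {z | (z, 0) ∈ img (γ i) (k i) (P i)}) γ
    (fun i => (measurable_id.prodMk measurable_const) (h5 i)) (fun a b z ha hb => ?_) (fun x => ?_)
  · by_contra hne
    exact Set.disjoint_left.1 (h6 hne) ha hb
  · have key : ∀ c, c < 2 → ∃ i, j i = c ∧ (γ i • x, 0) ∈ img (γ i) (k i) (P i) := by
      intro c hc
      have : (x, c) ∈ ⋃ i, P i := by rw [h3]; exact hc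
      obtain ⟨i, hi⟩ := Set.mem_iUnion.1 this
      have a : (γ i • x, k i) ∈ img (γ i) (k i) (P i) := ⟨(x, c), hi, rfl⟩
      have b : k i < 1 := hB (h7 ▸ Set.mem_iUnion.2 ⟨i, a⟩)
      refine ⟨i, (h4 i _ hi).symm, ?_⟩
      rwa [show (0 : ℕ) = k i by omega]
    obtain ⟨a, a1, a2⟩ := key 0 (by omega)
    obtain ⟨b, b1, b2⟩ := key 1 (by omega)
    exact ⟨a, b, fun e => by rw [e] at a1; omega, a2, b2⟩

end H11.TypeSg

namespace Pool.Agent.Results.MP_cafa5e_lc.NoPlain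

theorem result : ∃ (Γ X : Type) (_ : Group Γ) (_ : MeasurableSpace X) (_ : StandardBorelSpace X)
    (_ : MulAction Γ X), (∀ g : Γ, Measurable fun x : X => g • x) ∧
    H11.TypeSg.Le Γ (H11.TypeSg.copies X 3) (H11.TypeSg.copies X 2) ∧
    ¬ H11.TypeSg.Le Γ (H11.TypeSg.copies X 2) (H11.TypeSg.copies X 1) :=
  ⟨H11.Pdx.G, H11.Pdx.X, inferInstance, inferInstance, inferInstance, inferInstance,
    H11.Pdx.G_meas, H11.TypeSg.three_two, H11.TypeSg.not_two_one⟩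

end Pool.Agent.Results.MP_cafa5e_lc.NoPlain
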